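import Pool.Agent.Y886.GIE

/-!
# MP_778b46_nt: the exponent `b` for the number of the (a, b)-representable even numbers

For all natural numbers `a`, `b` and every `eps > 0` the number of the `n ≤ x` such that `2 n` is a sum of
two distinct numbers, an `(a + 1)`-fold iterated prime and a `(b + 1)`-fold iterated prime, is at least
`x / (log log x) ^ (b + eps)` for all large `x`. The starting result `AllPairsNearPositive` has
`c x / ((log log x) ^ (2 b) log log log x)`.

The proof considers windows of length `J`, a power of `log x`. A positive proportion of them contains many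
`a`-primes (second moment, starting files). In such a window the sums with the `b`-primes up to `J` are
counted by a moment of high order `k`: an upper bound sieve bounds, for every `k`-subset `T` of the
window, the number of the `m` such that all `m - t`, `t` in `T`, are primes, by a constant times
`J (log log J / log J) ^ k`. Hoelder's inequality gives `J / (log J) ^ (b k / (k - 1) + o(1))` sums.
-/

set_option autoImplicit false

open Filter

namespace Pool.Agent.Results.MP_778b46_nt.MinExponent

/-- **The exponent `b + eps`.** For all natural numbers `a`, `b` and every `eps > 0`, for all sufficiently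
large `x` at least `x / (log log x) ^ (b + eps)` of the `n ≤ x` are such that `2 n` is
`(a, b)`-representable. -/
theorem result (a b : ℕ) (eps : ℝ) (heps : 0 < eps) : ∀ᶠ x : ℕ in atTop,
    (x : ℝ) / Real.log (Real.log x) ^ ((b : ℝ) + eps) ≤
      Set.ncard {n : ℕ | n ≤ x ∧ ∃ u v : ℕ, 0 < u ∧ 0 < v ∧
        Nat.iterate (fun k : ℕ => Nat.nth Nat.Prime (k - 1)) (a + 1) u ≠
          Nat.iterate (fun k : ℕ => Nat.nth Nat.Prime (k - 1)) (b + 1) v ∧
        Nat.iterate (fun k : ℕ => Nat.nth Nat.Prime (k - 1)) (a + 1) u +
          Nat.iterate (fun k : ℕ => Nat.nth Nat.Prime (k - 1)) (b + 1) v = 2 * n} :=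
  Pool.Agent.Y886.GI.main a b eps heps

end Pool.Agent.Results.MP_778b46_nt.MinExponent
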