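import Pool.Agent.Y877.SxQ

/-!
# All types `(a, 0)` at once for almost all multiples of a small primorial
-/

set_option autoImplicit false

open Finset

namespace Pool.Agent.Results.MP_778b46_nt.TypesAZeroMultiples

/-- the `k`-th prime, `p 1 = 2` -/
noncomputable def p (k : ℕ) : ℕ := Nat.nth Nat.Prime (k - 1)

/-- the product of `1 - 1/q` over the primes `q ≤ y` -/
noncomputable def V (y : ℕ) : ℝ := ∏ q ∈ (Icc 1 y).filter Nat.Prime, (1 - 1 / (q : ℝ))

open Classical in
/-- the `a`-primes `≤ x`: the values `p (p (… p (t)))`, `a + 1` applications of `p`, `t ≥ 1` -/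
noncomputable def AP (a x : ℕ) : Finset ℕ := (Icc 1 x).filter (fun s => ∃ t : ℕ, 1 ≤ t ∧ Nat.iterate p (a + 1) t = s)

/-- the `a`-primes `s ≤ x` such that `N - s` is a prime different from `s` -/
noncomputable def Rep (a x N : ℕ) : Finset ℕ := (AP a x).filter (fun s => (N - s).Prime ∧ N - s ≠ s)

theorem AP_prime (a x s : ℕ) (hs : s ∈ AP a x) : s.Prime := by
  classical
  unfold AP at hs
  rw [mem_filter] at hs
  obtain ⟨_, t, _, ht⟩ := hs
  rw [← ht]
  rw [Function.iterate_succ_apply']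
  exact Nat.prime_nth_prime _

theorem AP_sub (a x : ℕ) : AP a x ⊆ Icc 1 x := by
  classical
  exact filter_subset _ _

theorem AP_low (a : ℕ) : ∃ x₀ : ℕ, ∀ x : ℕ, x₀ ≤ x → (x : ℝ) / (2 * Real.log x) ^ (a + 1) ≤ ((AP a x).card : ℝ) := by
  classical
  obtain ⟨x₀, h0⟩ := Pool.Agent.Y877.SX.TT_low a
  refine ⟨x₀, fun x hx => (h0 x hx).trans ?_⟩
  have hpk : p = Pool.Agent.Y877.SX.pk := rfl
  have : (Pool.Agent.Y877.SX.TT a x).card ≤ (AP a x).card := by
    apply card_le_card_of_injOn (fun t => Pool.Agent.Y877.SX.pk^[a + 1] t)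
    · intro t ht
      rw [mem_coe] at ht
      unfold Pool.Agent.Y877.SX.TT at ht
      rw [mem_filter, mem_Icc] at ht
      unfold AP
      rw [mem_coe, mem_filter, mem_Icc]
      exact ⟨⟨Pool.Agent.Y877.SX.iter_pos _ t ht.1.1, ht.2⟩, t, ht.1.1, by rw [hpk]⟩
    · intro s hs t ht hst
      rw [mem_coe] at hs ht
      unfold Pool.Agent.Y877.SX.TT at hs ht
      rw [mem_filter, mem_Icc] at hs ht
      exact Pool.Agent.Y877.SX.iter_inj (a + 1) s t hs.1.1 ht.1.1 hst
  exact_mod_cast this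

open Classical in
/-- For all `a₀`, `C` and `0 < ε ≤ 1` there is `K₀` such that for every `K₁` and every large `x`, every `y` between
`K₀ log log x` and `K₁ log log x`, with `M` the product of the primes `≤ y`, and every window `(g₀, g₀ + G]` with
`x ≤ M g₀`, `M (g₀ + G) ≤ 2 x`, `G ≥ x / (M log ^ C x)`: there are at least `x / (2 log x) ^ (a + 1)` `a`-primes `≤ x` for
all `a ≤ a₀`, and for all but at most `ε G` of the `g ≤ G`, for ALL `a ≤ a₀`, the number `M (g₀ + g)` is the sum of an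
`a`-prime `s ≤ x` and a different prime for at least `(1 - ε) #{a-primes ≤ x} / (V y log x)` numbers `s`. -/
theorem result : ∀ (a₀ C : ℕ) (ε : ℝ), 0 < ε → ε ≤ 1 → ∃ K₀ : ℕ, ∀ K₁ : ℕ, ∃ x₀ : ℕ, ∀ x : ℕ, x₀ ≤ x →
    ∀ y : ℕ, K₀ * Real.log (Real.log x) ≤ y → y ≤ K₁ * Real.log (Real.log x) →
    ∀ g₀ G : ℕ, x ≤ primorial y * g₀ → primorial y * (g₀ + G) ≤ 2 * x → (x : ℝ) ≤ primorial y * G * Real.log x ^ C →
    (∀ a ≤ a₀, (x : ℝ) / (2 * Real.log x) ^ (a + 1) ≤ ((AP a x).card : ℝ)) ∧
    (((Icc 1 G).filter (fun g => ∃ a ≤ a₀, ((Rep a x (primorial y * (g₀ + g))).card : ℝ) <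
      (1 - ε) * ((AP a x).card / (V y * Real.log x)))).card : ℝ) ≤ ε * G := by
  intro a₀ C ε hε hε1
  have ha0 : (0 : ℝ) < (a₀ : ℝ) + 1 := by positivity
  have hε' : 0 < ε / (a₀ + 1) := by positivity
  have hε2 : ε / ((a₀ : ℝ) + 1) ≤ ε := div_le_self hε.le (by linarith [(Nat.cast_nonneg a₀ : (0 : ℝ) ≤ a₀)])
  obtain ⟨K₀, hK₀⟩ := Pool.Agent.Y877.SX.step_neg 1 (Or.inl rfl) (2 * (a₀ + 1)) C (ε / (a₀ + 1)) hε' (hε2.trans hε1)
  choose xa hxa using AP_low
  refine ⟨K₀ + 3, fun K₁ => ?_⟩
  obtain ⟨n2, hn2⟩ := hK₀ K₁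
  obtain ⟨n3, hn3⟩ := Pool.Agent.H373R2.T7.ev_L' (max 2 (Real.exp 1))
  refine ⟨max ((range (a₀ + 1)).sup xa) (max n2 (max n3 7)), fun x hx y hy1 hy2 g₀ G hg0 hg1 hg2 => ?_⟩
  have b1 : (range (a₀ + 1)).sup xa ≤ x := le_trans (le_max_left _ _) hx
  have b2 : n2 ≤ x := le_trans (le_trans (le_max_left _ _) (le_max_right _ _)) hx
  have b3 : n3 ≤ x := le_trans (le_trans (le_trans (le_max_left _ _) (le_max_right _ _)) (le_max_right _ _)) hx
  have b4 : 7 ≤ x := le_trans (le_trans (le_trans (le_max_right _ _) (le_max_right _ _)) (le_max_right _ _)) hx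
  have hL' := hn3 x b3
  have hL : 2 ≤ Real.log x := (le_max_left _ _).trans hL'
  have hL0 : 0 < Real.log x := by linarith
  have hlL : 1 ≤ Real.log (Real.log x) := by
    rw [← Real.log_exp 1]
    exact Real.log_le_log (Real.exp_pos 1) ((le_max_right _ _).trans hL')
  have hlow : ∀ a ≤ a₀, (x : ℝ) / (2 * Real.log x) ^ (a + 1) ≤ ((AP a x).card : ℝ) := by
    intro a ha
    exact hxa a x ((Finset.le_sup (f := xa) (mem_range.2 (by omega))).trans b1)
  refine ⟨hlow, ?_⟩
  push_cast at hy1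
  have hK0n : (0 : ℝ) ≤ (K₀ : ℝ) * Real.log (Real.log x) := by positivity
  have hy1' : (K₀ : ℝ) * Real.log (Real.log x) ≤ y := by linarith
  have hy3 : 3 ≤ y := by
    have : (3 : ℝ) ≤ y := by linarith
    exact_mod_cast this
  have hM3 : 3 ∣ primorial y := Nat.prime_three.dvd_primorial_iff.2 hy3
  have hM1 : 0 < primorial y := primorial_pos y
  have main : ∀ a ≤ a₀, (((Icc 1 G).filter (fun g => ((Rep a x (primorial y * (g₀ + g))).card : ℝ) <
      (1 - ε) * ((AP a x).card / (V y * Real.log x)))).card : ℝ) ≤ ε / (a₀ + 1) * G := by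
    intro a ha
    have hd : (x : ℝ) ≤ (AP a x).card * Real.log x ^ (2 * (a₀ + 1)) := by
      have h1 := hlow a ha
      rw [div_le_iff₀ (by positivity)] at h1
      refine h1.trans (mul_le_mul_of_nonneg_left ?_ (Nat.cast_nonneg _))
      calc (2 * Real.log x) ^ (a + 1) ≤ (Real.log x ^ 2) ^ (a + 1) := by
            apply pow_le_pow_left₀ (by positivity)
            rw [sq]
            exact mul_le_mul_of_nonneg_right hL hL0.le
        _ = Real.log x ^ (2 * (a + 1)) := by rw [← pow_mul]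
        _ ≤ Real.log x ^ (2 * (a₀ + 1)) := pow_le_pow_right₀ (by linarith) (by omega)
    have h1 := hn2 x b2 y hy1' hy2 (AP a x) (AP_sub a x) (fun s hs => AP_prime a x s hs) hd g₀ G (by rw [pow_one]; exact hg0)
      (by rw [pow_one]; exact hg1) (by rw [pow_one]; exact hg2)
    refine le_trans ?_ h1
    have hsub : (Icc 1 G).filter (fun g => ((Rep a x (primorial y * (g₀ + g))).card : ℝ) <
        (1 - ε) * ((AP a x).card / (V y * Real.log x))) ⊆ (Icc 1 G).filter (fun g => (((AP a x).filter (fun s =>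
        (primorial y * (g₀ + g) - s ^ 1).Prime)).card : ℝ) < (1 - ε / (a₀ + 1)) * ((AP a x).card /
        (Pool.Agent.H373R2.T7.Vz y * (((1 : ℕ) : ℝ) * Real.log x)))) := by
      intro g hg
      rw [mem_filter] at hg ⊢
      refine ⟨hg.1, ?_⟩
      have hg1' := (mem_Icc.1 hg.1).1
      have e1 : (AP a x).filter (fun s => (primorial y * (g₀ + g) - s ^ 1).Prime) = Rep a x (primorial y * (g₀ + g)) := by
        unfold Rep
        apply filter_congr
        intro s hs
        rw [pow_one]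
        constructor
        · intro h
          refine ⟨h, fun heq => ?_⟩
          have hsp := AP_prime a x s hs
          have hsx := (mem_Icc.1 (AP_sub a x hs)).2
          have h5 : x < primorial y * (g₀ + g) := by
            rw [mul_add]
            have : 0 < primorial y * g := Nat.mul_pos hM1 (by omega)
            omega
          have h6 : primorial y * (g₀ + g) = 2 * s := by omega
          have h7 : 3 ∣ 2 * s := by
            rw [← h6]
            exact hM3.mul_right _
          have h8 : 3 ∣ s := (Nat.Coprime.dvd_of_dvd_mul_left (by norm_num) h7)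
          have h9 := (Nat.prime_dvd_prime_iff_eq Nat.prime_three hsp).1 h8
          omega
        · exact fun h => h.1
      rw [e1]
      refine lt_of_lt_of_le hg.2 ?_
      have hV : Pool.Agent.H373R2.T7.Vz y = V y := rfl
      have hVp : 0 < V y := Pool.Agent.H373R2.T7.Vz_pos y
      rw [hV, Nat.cast_one, one_mul]
      apply mul_le_mul_of_nonneg_right _ (by positivity)
      linarith
    exact_mod_cast card_le_card hsub
  have hun : (Icc 1 G).filter (fun g => ∃ a ≤ a₀, ((Rep a x (primorial y * (g₀ + g))).card : ℝ) <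
      (1 - ε) * ((AP a x).card / (V y * Real.log x))) ⊆ (range (a₀ + 1)).biUnion (fun a => (Icc 1 G).filter (fun g =>
      ((Rep a x (primorial y * (g₀ + g))).card : ℝ) < (1 - ε) * ((AP a x).card / (V y * Real.log x)))) := by
    intro g hg
    rw [mem_filter] at hg
    obtain ⟨hg1, a, ha, h⟩ := hg
    rw [mem_biUnion]
    exact ⟨a, mem_range.2 (by omega), mem_filter.2 ⟨hg1, h⟩⟩
  have hc := (card_le_card hun).trans card_biUnion_le
  have hc' : (((Icc 1 G).filter (fun g => ∃ a ≤ a₀, ((Rep a x (primorial y * (g₀ + g))).card : ℝ) <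
      (1 - ε) * ((AP a x).card / (V y * Real.log x)))).card : ℝ) ≤ ∑ a ∈ range (a₀ + 1), (((Icc 1 G).filter (fun g =>
      ((Rep a x (primorial y * (g₀ + g))).card : ℝ) < (1 - ε) * ((AP a x).card / (V y * Real.log x)))).card : ℝ) := by
    exact_mod_cast hc
  refine hc'.trans ((sum_le_sum (fun a ha => main a (by have := mem_range.1 ha; omega))).trans (le_of_eq ?_))
  rw [sum_const, card_range, nsmul_eq_mul]
  push_cast
  field_simp

end Pool.Agent.Results.MP_778b46_nt.TypesAZeroMultiples
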